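import Mathlib
import Pool.Agent.H964.LF.Stm

set_option autoImplicit false

namespace Pool.Agent.H322.LF

open MeasureTheory Pool.Agent.H964.LF
open scoped ENNReal

/-- the volume of an event increases with the event -/
theorem vl_mono {d n : ℕ} (p : Tor d n) (E E' : Set (Tor d n → ℝ)) (h : E ⊆ E') :
    vl p E ≤ vl p E' := by
  unfold vl
  exact measure_mono fun ψ hψ => ⟨hψ.1, hψ.2.1, h hψ.2.2⟩

theorem root_pow {d : ℕ} (hd : 1 ≤ d) {y : ℝ} (hy : 0 ≤ y) :
    ENNReal.ofReal (y ^ ((1 : ℝ) / (4 * d))) ^ (2 * d) = ENNReal.ofReal (Real.sqrt y) := by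
  rw [← ENNReal.ofReal_pow (by positivity)]
  congr 1
  rw [← Real.rpow_natCast, ← Real.rpow_mul hy, Real.sqrt_eq_rpow]
  congr 1
  have : (d : ℝ) ≠ 0 := by
    have : (1 : ℝ) ≤ d := by exact_mod_cast hd
    linarith
  push_cast
  field_simp
  norm_num

theorem t_STEEP2 : S_STEEP → S_STEEP2 := by
  classical
  intro h d n p A δ hd hn hδ
  set V := vl p Set.univ with hV
  set E : Set (Tor d n → ℝ) := {ψ | ∀ e ∈ A, 1 - δ e ≤ |ψ (e.1 + Pi.single e.2 1) - ψ e.1|} with hE
  set f : Tor d n × Fin d → ℝ≥0∞ :=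
    fun e => ENNReal.ofReal (Real.sqrt (128 * (d : ℝ) ^ 2 * δ e)) with hf
  have hcls : ∀ κ : ZMod 2 × Fin d,
      vl p E ≤ (∏ e ∈ A.filter (fun e => (par e.1, e.2) = κ), f e) * V := by
    rintro ⟨c, i⟩
    set B := A.filter (fun e => (par e.1, e.2) = (c, i)) with hB
    have hBm : ∀ e ∈ B, e ∈ A ∧ par e.1 = c ∧ e.2 = i := by
      intro e he
      rw [hB, Finset.mem_filter, Prod.mk.injEq] at he
      exact he
    have hinj : Set.InjOn Prod.fst (B : Set (Tor d n × Fin d)) := by
      intro e he e' he' hee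
      exact Prod.ext hee ((hBm e he).2.2.trans (hBm e' he').2.2.symm)
    have h1 := h d n p c (B.image Prod.fst) (fun _ => (i, true)) (fun u => δ (u, i)) hd hn
      (by
        intro u hu
        obtain ⟨e, he, rfl⟩ := Finset.mem_image.1 hu
        exact (hBm e he).2.1)
      (by
        intro u hu
        obtain ⟨e, he, rfl⟩ := Finset.mem_image.1 hu
        have h2 : (e.1, i) = e := Prod.ext rfl (hBm e he).2.2.symm
        simp only [h2]
        exact hδ e (hBm e he).1)
    rw [Finset.prod_image hinj] at h1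
    have h2 : ∏ e ∈ B, ENNReal.ofReal (Real.sqrt (128 * (d : ℝ) ^ 2 * δ (e.1, i))) =
        ∏ e ∈ B, f e := by
      refine Finset.prod_congr rfl fun e he => ?_
      have h3 : (e.1, i) = e := Prod.ext rfl (hBm e he).2.2.symm
      rw [h3]
    rw [h2] at h1
    refine le_trans (vl_mono p _ _ ?_) h1
    intro ψ hψ u hu
    obtain ⟨e, he, rfl⟩ := Finset.mem_image.1 hu
    have h3 : (e.1, i) = e := Prod.ext rfl (hBm e he).2.2.symm
    have h4 := hψ e (hBm e he).1
    have h5 : nb e.1 (i, true) = e.1 + Pi.single e.2 1 := by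
      rw [(hBm e he).2.2]
      rfl
    simp only [h5, h3]
    exact h4
  have hprod : (vl p E) ^ (2 * d) ≤ (∏ e ∈ A, f e) * V ^ (2 * d) := by
    have hcard : Fintype.card (ZMod 2 × Fin d) = 2 * d := by
      rw [Fintype.card_prod, ZMod.card, Fintype.card_fin]
    calc (vl p E) ^ (2 * d) = ∏ _κ : ZMod 2 × Fin d, vl p E := by
          rw [Finset.prod_const, Finset.card_univ, hcard]
      _ ≤ ∏ κ : ZMod 2 × Fin d, ((∏ e ∈ A.filter (fun e => (par e.1, e.2) = κ), f e) * V) :=
          Finset.prod_le_prod' fun κ _ => hcls κ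
      _ = (∏ κ : ZMod 2 × Fin d, ∏ e ∈ A.filter (fun e => (par e.1, e.2) = κ), f e) *
          ∏ _κ : ZMod 2 × Fin d, V := Finset.prod_mul_distrib
      _ = _ := by
          rw [Finset.prod_fiberwise, Finset.prod_const, Finset.card_univ, hcard]
  have hb : ((∏ e ∈ A, ENNReal.ofReal ((128 * (d : ℝ) ^ 2 * δ e) ^ ((1 : ℝ) / (4 * d)))) * V) ^
      (2 * d) = (∏ e ∈ A, f e) * V ^ (2 * d) := by
    rw [mul_pow, ← Finset.prod_pow]
    congr 1
    refine Finset.prod_congr rfl fun e he => root_pow hd ?_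
    have := (hδ e he).1
    positivity
  rw [← hb] at hprod
  exact (ENNReal.pow_right_strictMono (by omega)).le_iff_le.1 hprod

end Pool.Agent.H322.LF
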